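import Pool.Agent.Y220.KE.Lr
import Pool.Agent.Y714.KE.Cusp

set_option autoImplicit false
set_option linter.unusedSectionVars false
set_option linter.unusedVariables false

/-! # KE-LRJ: the local condition on the slice of a cusp cell depends on the residues -/

namespace Pool.Agent.Z864.KE

open Pool.Agent.Y714.KF (FI sp ct nm pm ext br gl ubas qf bk el sg bf)
open Pool.Agent.Y714.KE
open NumberField FractionalIdeal Module Finset
open scoped nonZeroDivisors
open Pool.Agent.Y220.KE.LrA

variable {s : Type} [Fintype s] [DecidableEq s] {K : s → Type} [∀ i, Field (K i)]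
  [∀ i, NumberField (K i)]

theorem sl_cast {p : ℕ} (j : s) (z : Jx K j → ℤ) (k : Ix K ⊕ Ix K) :
    ((sl j z k : ℤ) : ZMod p) = sl j (fun i => (z i : ZMod p)) k := by
  unfold sl
  split_ifs with h
  · rcases k with k | k
    · simp
    · simp
  · rfl

theorem sl_inl_self {R : Type} [Zero R] [One R] (j : s) (x : Jx K j → R) (y : Ix K)
    (h : y.1 = j) : sl j x (Sum.inl y) = 0 := by
  unfold sl
  rw [dif_pos (show cm (Sum.inl y) = j from h)]
  rfl

theorem sl_inr_self {R : Type} [Zero R] [One R] (j : s) (x : Jx K j → R) (y : Ix K)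
    (h : y.1 = j) : sl j x (Sum.inr y) = 1 := by
  unfold sl
  rw [dif_pos (show cm (Sum.inr y) = j from h)]
  rfl

theorem sl_ne {R : Type} [Zero R] [One R] (j : s) (x : Jx K j → R) (k : Jx K j) :
    sl j x k.1 = x k := by
  unfold sl
  rw [dif_neg k.2]

theorem Rs_upd {p : ℕ} {I : FU K} {b : Bs K} (hb : IsB I b) {J : FA K} (j : s)
    (hJ : J j = cf I j) {r : Ix K → ZMod p} (hr : r ∈ Rs p b J) (v : ZMod p) :
    (fun y : Ix K => if y.1 = j then v else r y) ∈ Rs p b J := by
  obtain ⟨z, hz, hz'⟩ := hr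
  obtain ⟨w, hw⟩ := ZMod.intCast_surjective v
  refine ⟨fun y => if y.1 = j then w else z y, ?_, ?_⟩
  · funext y
    by_cases h : y.1 = j
    · simp only [if_pos h, hw]
    · simp only [if_neg h]
      exact congrFun hz y
  · intro i
    by_cases h : i = j
    · subst h
      rw [hJ]
      exact (hb i _).2 ⟨_, rfl⟩
    · have e : (fun l => (fun y : Ix K => if y.1 = j then w else z y) ⟨i, l⟩) =
          fun l => z ⟨i, l⟩ := by
        funext l
        exact if_neg h
      rw [e]
      exact hz' i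

/-- content failures -/
theorem ncard_A {p : ℕ} [NeZero p] {I : FU K} {b : Bs K} (hb : IsB I b) {J : FA K} (j : s)
    (hj : finrank ℚ (K j) = 1) (hJ : J j = cf I j) :
    {t : Jx K j → ZMod p | (fun y => sl j t (Sum.inl y)) ∈ Rs p b J ∧
      (fun y => sl j t (Sum.inr y)) ∈ Rs p b J}.ncard * (p * p) ≤
      (Rs p b J).ncard * (Rs p b J).ncard := by
  classical
  let l0 : Ix K := ⟨j, ⟨0, by omega⟩⟩
  let f : (Ix K → ZMod p) × (Ix K → ZMod p) → (Jx K j → ZMod p) × (ZMod p × ZMod p) := fun q =>
    (fun k => Sum.elim (fun y => q.1 y) (fun y => q.2 y) k.1, (q.1 l0, q.2 l0))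
  have hsub : ({t : Jx K j → ZMod p | (fun y => sl j t (Sum.inl y)) ∈ Rs p b J ∧
      (fun y => sl j t (Sum.inr y)) ∈ Rs p b J} ×ˢ (Set.univ : Set (ZMod p × ZMod p))) ⊆
      f '' (Rs p b J ×ˢ Rs p b J) := by
    rintro ⟨t, v, w⟩ ⟨⟨h1, h2⟩, -⟩
    refine ⟨(fun y : Ix K => if y.1 = j then v else sl j t (Sum.inl y),
      fun y : Ix K => if y.1 = j then w else sl j t (Sum.inr y)),
      ⟨Rs_upd hb j hJ h1 v, Rs_upd hb j hJ h2 w⟩, ?_⟩
    refine Prod.ext ?_ (Prod.ext ?_ ?_)
    · funext k
      obtain ⟨k, hk⟩ := k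
      rcases k with y | y
      · change (if y.1 = j then v else sl j t (Sum.inl y)) = t ⟨Sum.inl y, hk⟩
        rw [if_neg (show ¬ y.1 = j from hk)]
        exact sl_ne j t ⟨Sum.inl y, hk⟩
      · change (if y.1 = j then w else sl j t (Sum.inr y)) = t ⟨Sum.inr y, hk⟩
        rw [if_neg (show ¬ y.1 = j from hk)]
        exact sl_ne j t ⟨Sum.inr y, hk⟩
    · exact if_pos rfl
    · exact if_pos rfl
  have h1 := Set.ncard_le_ncard hsub (Set.toFinite _)
  have h2 : (f '' (Rs p b J ×ˢ Rs p b J)).ncard ≤ (Rs p b J ×ˢ Rs p b J).ncard :=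
    Set.ncard_image_le (Set.toFinite _)
  rw [Set.ncard_prod, Set.ncard_univ, Nat.card_prod, Nat.card_zmod] at h1
  rw [Set.ncard_prod] at h2
  exact h1.trans h2

/-- failures of reducedness -/
theorem ncard_B {p : ℕ} [NeZero p] (j : s) (hj : finrank ℚ (K j) = 1)
    (R : Set (Ix K → ZMod p)) :
    {t : Jx K j → ZMod p | ∃ k : Option (ZMod p), lfo (K := K) p k (sl j t) ∈ R}.ncard * p ≤
      2 * (p ^ dg K * R.ncard) := by
  classical
  let l0 : Ix K := ⟨j, ⟨0, by omega⟩⟩
  have hc : (Set.univ : Set (Ix K → ZMod p)).ncard = p ^ dg K := by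
    rw [Set.ncard_univ, Nat.card_eq_fintype_card, Fintype.card_fun, ZMod.card, card_Ix]
  let f1 : (Ix K → ZMod p) × (Ix K → ZMod p) → (Jx K j → ZMod p) × ZMod p := fun q =>
    (fun k => Sum.elim (fun y => q.2 y - q.2 l0 * q.1 y) (fun y => q.1 y) k.1, q.1 l0)
  let f2 : (Ix K → ZMod p) × (Ix K → ZMod p) → (Jx K j → ZMod p) × ZMod p := fun q =>
    (fun k => Sum.elim (fun y => q.1 y) (fun y => q.2 y) k.1, q.1 l0)
  have hsub : ({t : Jx K j → ZMod p | ∃ k : Option (ZMod p), lfo (K := K) p k (sl j t) ∈ R} ×ˢ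
      (Set.univ : Set (ZMod p))) ⊆
      f1 '' ((Set.univ : Set (Ix K → ZMod p)) ×ˢ R) ∪
      f2 '' ((Set.univ : Set (Ix K → ZMod p)) ×ˢ R) := by
    rintro ⟨t, v⟩ ⟨⟨k, hk⟩, -⟩
    rcases k with _ | κ
    · right
      refine ⟨(fun y : Ix K => if y.1 = j then v else sl j t (Sum.inl y), _), ⟨Set.mem_univ _, hk⟩,
        Prod.ext ?_ ?_⟩
      · funext k
        obtain ⟨k, hk⟩ := k
        rcases k with y | y
        · change (if y.1 = j then v else sl j t (Sum.inl y)) = t ⟨Sum.inl y, hk⟩
          rw [if_neg (show ¬ y.1 = j from hk)]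
          exact sl_ne j t ⟨Sum.inl y, hk⟩
        · change sl j t (Sum.inr y) = t ⟨Sum.inr y, hk⟩
          exact sl_ne j t ⟨Sum.inr y, hk⟩
      · exact if_pos rfl
    · left
      refine ⟨(fun y : Ix K => if y.1 = j then v else sl j t (Sum.inr y), _), ⟨Set.mem_univ _, hk⟩,
        Prod.ext ?_ ?_⟩
      · funext k
        obtain ⟨k, hk⟩ := k
        rcases k with y | y
        · change (sl j t (Sum.inl y) + κ * sl j t (Sum.inr y)) -
            (sl j t (Sum.inl l0) + κ * sl j t (Sum.inr l0)) *
            (if y.1 = j then v else sl j t (Sum.inr y)) = t ⟨Sum.inl y, hk⟩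
          rw [if_neg (show ¬ y.1 = j from hk), sl_inl_self j t l0 rfl, sl_inr_self j t l0 rfl,
            ← sl_ne j t ⟨Sum.inl y, hk⟩]
          ring
        · change (if y.1 = j then v else sl j t (Sum.inr y)) = t ⟨Sum.inr y, hk⟩
          rw [if_neg (show ¬ y.1 = j from hk)]
          exact sl_ne j t ⟨Sum.inr y, hk⟩
      · exact if_pos rfl
  have h1 := Set.ncard_le_ncard hsub (Set.toFinite _)
  have h2 := Set.ncard_union_le (f1 '' ((Set.univ : Set (Ix K → ZMod p)) ×ˢ R))
    (f2 '' ((Set.univ : Set (Ix K → ZMod p)) ×ˢ R))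
  have h3 : (f1 '' ((Set.univ : Set (Ix K → ZMod p)) ×ˢ R)).ncard ≤
      ((Set.univ : Set (Ix K → ZMod p)) ×ˢ R).ncard := Set.ncard_image_le (Set.toFinite _)
  have h4 : (f2 '' ((Set.univ : Set (Ix K → ZMod p)) ×ˢ R)).ncard ≤
      ((Set.univ : Set (Ix K → ZMod p)) ×ˢ R).ncard := Set.ncard_image_le (Set.toFinite _)
  rw [Set.ncard_prod, Set.ncard_univ, Nat.card_zmod] at h1
  rw [Set.ncard_prod, hc] at h3 h4
  omega

/-- a generator of an ideal of a component of degree one is not in a smaller ideal -/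
theorem gen_not_mem {I : FU K} {b : Bs K} (hb : IsB I b) (j : s) (hj : finrank ℚ (K j) = 1)
    {q : Ideal (𝓞 (K j))} (hq : q.IsPrime)
    (h : el (b j) (fun _ => 1) ∈ (q : FI (K j)) * cf I j) : False := by
  have h1 : cf I j ≤ (q : FI (K j)) * cf I j := by
    intro x hx
    obtain ⟨w, rfl⟩ := (hb j x).1 hx
    have e : w = (w ⟨0, by omega⟩) • (fun _ => (1 : ℤ)) := by
      funext l
      have : l = ⟨0, by omega⟩ := by
        apply Fin.ext
        have := l.2
        simp only
        omega
      rw [this]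
      simp
    rw [e, Pool.Agent.Y714.KF.el_smul]
    exact Pool.Agent.Y714.KF.intCast_mul_mem _ h
  exact nm_q_ne (I j).ne_zero hq (congrArg nm (le_antisymm (q_le q) h1))

theorem lrj (h1 : S_DIV K) (h2 : S_CNT K) : S_LRJ K := by
  classical
  intro _ hn I b hb j hj
  refine ⟨2 ^ (dg K + 2), by positivity, ?_⟩
  intro p hp
  have : NeZero p := ⟨hp.ne_zero⟩
  have hI : ∀ i, cf I i ≠ 0 := fun i => (I i).ne_zero
  have hIp : 0 < nA (cf I) := nA_pos hI
  have hp1 : (1 : ℚ) < p := by exact_mod_cast hp.one_lt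
  refine ⟨{t | ∃ z : Jx K j → ℤ, (fun i => (z i : ZMod p)) = t ∧
    Gd p (cf I) b (sl j z)}, ?_, ?_⟩
  · intro z hz
    rw [loc_iff hz]
    constructor
    · intro h
      exact ⟨z, rfl, h⟩
    · rintro ⟨z', hz', h'⟩
      refine h'.congr hb (fun k => ?_)
      rw [sl_cast, sl_cast, hz']
  · set F : Finset (FA K) := (h1 p hp I).1.toFinset with hF
    have hFm : ∀ J, J ∈ F ↔ ∀ i, sp (p : K i) * cf I i ≤ J i ∧ J i ≤ cf I i := by
      intro J
      rw [hF, Set.Finite.mem_toFinset]
      rfl
    have hFc : F.card ≤ 2 ^ dg K := by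
      have := (h1 p hp I).2
      rwa [Set.ncard_eq_toFinset_card _ (h1 p hp I).1] at this
    set A : FA K → Set (Jx K j → ZMod p) := fun J =>
      {t | ((p : ℚ) * nA (cf I) ≤ nA J ∧ J j = cf I j) ∧
        (fun y => sl j t (Sum.inl y)) ∈ Rs p b J ∧
        (fun y => sl j t (Sum.inr y)) ∈ Rs p b J} with hA
    set B : FA K → Set (Jx K j → ZMod p) :=
      fun J => {t | (p : ℚ) ^ 3 * nA (cf I) ≤ nA J ∧
        ∃ k : Option (ZMod p), lfo (K := K) p k (sl j t) ∈ Rs p b J} with hB
    have hRs : ∀ J ∈ F, ∀ e : ℕ, e ≤ dg K → (p : ℚ) ^ e * nA (cf I) ≤ nA J →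
        (Rs p b J).ncard ≤ p ^ (dg K - e) := by
      intro J hJ e he hle
      have g1 : ∀ i, sp (p : K i) * cf I i ≤ J i := fun i => ((hFm J).1 hJ i).1
      have g2 : ∀ i, J i ≤ cf I i := fun i => ((hFm J).1 hJ i).2
      obtain ⟨m, hm, hmJ⟩ := exists_powA hp hI g1 g2
      have g3 : (Rs p b J).ncard * p ^ m = p ^ dg K := h2 p hp I b hb J m g1 g2 hmJ
      have g4 : e ≤ m := by
        rw [hmJ] at hle
        have g5 := le_of_mul_le_mul_right hle hIp
        exact (pow_le_pow_iff_right₀ hp1).1 g5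
      have g6 : (Rs p b J).ncard * p ^ e ≤ p ^ (dg K - e) * p ^ e := by
        rw [← pow_add, Nat.sub_add_cancel he, ← g3]
        exact Nat.mul_le_mul_left _ (Nat.pow_le_pow_right hp.pos g4)
      exact Nat.le_of_mul_le_mul_right g6 (pow_pos hp.pos _)
    have hAc : ∀ J ∈ F, (A J).ncard ≤ p ^ (2 * dg K - 4) := by
      intro J hJ
      by_cases hc : (p : ℚ) * nA (cf I) ≤ nA J ∧ J j = cf I j
      · have g1 := hRs J hJ 1 (by omega) (by rw [pow_one]; exact hc.1)
        have g2 := ncard_A (p := p) hb j hj hc.2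
        have g3 : (A J).ncard ≤ {t : Jx K j → ZMod p | (fun y => sl j t (Sum.inl y)) ∈ Rs p b J ∧
            (fun y => sl j t (Sum.inr y)) ∈ Rs p b J}.ncard :=
          Set.ncard_le_ncard (fun t ht => ht.2) (Set.toFinite _)
        have g4 : (A J).ncard * (p * p) ≤ p ^ (2 * dg K - 4) * (p * p) :=
          calc (A J).ncard * (p * p) ≤ (Rs p b J).ncard * (Rs p b J).ncard :=
                (Nat.mul_le_mul_right _ g3).trans g2
            _ ≤ p ^ (dg K - 1) * p ^ (dg K - 1) := Nat.mul_le_mul g1 g1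
            _ = p ^ (2 * dg K - 4) * (p * p) := by
                rw [← pow_two, ← pow_two, ← pow_mul, ← pow_add]
                congr 1
                omega
        exact Nat.le_of_mul_le_mul_right g4 (Nat.mul_pos hp.pos hp.pos)
      · have g1 : A J = ∅ := by
          ext t
          simp only [hA, Set.mem_ofPred_eq, Set.mem_empty_iff_false, iff_false]
          exact fun h => hc h.1
        rw [g1, Set.ncard_empty]
        exact Nat.zero_le _
    have hBc : ∀ J ∈ F, (B J).ncard ≤ 2 * p ^ (2 * dg K - 4) := by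
      intro J hJ
      by_cases hc : (p : ℚ) ^ 3 * nA (cf I) ≤ nA J
      · have g1 := hRs J hJ 3 (by omega) hc
        have g2 := ncard_B (K := K) (p := p) j hj (Rs p b J)
        have g3 : (B J).ncard ≤ {t : Jx K j → ZMod p |
            ∃ k : Option (ZMod p), lfo (K := K) p k (sl j t) ∈ Rs p b J}.ncard :=
          Set.ncard_le_ncard (fun t ht => ht.2) (Set.toFinite _)
        have g4 : (B J).ncard * p ≤ 2 * p ^ (2 * dg K - 4) * p :=
          calc (B J).ncard * p ≤ 2 * (p ^ dg K * (Rs p b J).ncard) :=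
                (Nat.mul_le_mul_right _ g3).trans g2
            _ ≤ 2 * (p ^ dg K * p ^ (dg K - 3)) :=
                Nat.mul_le_mul_left _ (Nat.mul_le_mul_left _ g1)
            _ = 2 * p ^ (2 * dg K - 4) * p := by
                rw [mul_assoc, ← pow_succ, ← pow_add]
                congr 2
                omega
        exact Nat.le_of_mul_le_mul_right g4 hp.pos
      · have g1 : B J = ∅ := by
          ext t
          simp only [hB, Set.mem_ofPred_eq, Set.mem_empty_iff_false, iff_false]
          exact fun h => hc h.1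
        rw [g1, Set.ncard_empty]
        exact Nat.zero_le _
    have hcov : {t | ∃ z : Jx K j → ℤ,
        (fun i => (z i : ZMod p)) = t ∧ Gd p (cf I) b (sl j z)}ᶜ ⊆
        ⋃ J ∈ F, (A J ∪ B J) := by
      intro t ht
      obtain ⟨z, rfl⟩ : ∃ z : Jx K j → ℤ, (fun i => (z i : ZMod p)) = t := by
        choose z hz using fun i => ZMod.intCast_surjective (t i)
        exact ⟨z, funext hz⟩
      have hz : ¬ Gd p (cf I) b (sl j z) := fun h => ht ⟨z, rfl, h⟩
      have m1 : ∀ i, (pr b (sl j z)).1 i ∈ cf I i := fun i => (hb i _).2 ⟨_, rfl⟩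
      have m2 : ∀ i, (pr b (sl j z)).2 i ∈ cf I i := fun i => (hb i _).2 ⟨_, rfl⟩
      have hcast : (fun k => ((sl j z k : ℤ) : ZMod p)) = sl j (fun i => (z i : ZMod p)) :=
        funext fun k => sl_cast j z k
      have hcl : (fun y => ((sl j z (Sum.inl y) : ℤ) : ZMod p)) =
          fun y => sl j (fun i => (z i : ZMod p)) (Sum.inl y) :=
        funext fun y => sl_cast j z (Sum.inl y)
      have hcr : (fun y => ((sl j z (Sum.inr y) : ℤ) : ZMod p)) =
          fun y => sl j (fun i => (z i : ZMod p)) (Sum.inr y) :=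
        funext fun y => sl_cast j z (Sum.inr y)
      simp only [Set.mem_iUnion, Set.mem_union, exists_prop]
      rw [Gd, not_and_or] at hz
      rcases hz with hz | hz
      · push Not at hz
        obtain ⟨i₀, q, hq, hpq, g1, g2⟩ := hz
        have hij : j ≠ i₀ := by
          rintro rfl
          refine gen_not_mem hb j hj hq ?_
          have e : (pr b (sl j z)).2 j = el (b j) (fun _ => 1) := by
            change el (b j) (fun l => sl j z (Sum.inr ⟨j, l⟩)) = _
            congr 1
            funext l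
            exact sl_inr_self j z ⟨j, l⟩ rfl
          rw [← e]
          exact g2
        set J : FA K := Function.update (cf I) i₀ ((q : FI (K i₀)) * cf I i₀) with hJ
        have hJ0 : J i₀ = (q : FI (K i₀)) * cf I i₀ := by rw [hJ, Function.update_self]
        have hJ1 : ∀ i, i ≠ i₀ → J i = cf I i := fun i hi => by
          rw [hJ, Function.update_of_ne hi]
        have g3 : ∀ i, sp (p : K i) * cf I i ≤ J i := by
          intro i
          by_cases hi : i = i₀
          · subst hi
            rw [hJ0]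
            exact spI_le_q hpq
          · rw [hJ1 i hi]
            exact spI_le p
        have g4 : ∀ i, J i ≤ cf I i := by
          intro i
          by_cases hi : i = i₀
          · subst hi
            rw [hJ0]
            exact q_le q
          · rw [hJ1 i hi]
        have g5 : ∀ i, (pr b (sl j z)).1 i ∈ J i := by
          intro i
          by_cases hi : i = i₀
          · subst hi
            rw [hJ0]
            exact g1
          · rw [hJ1 i hi]
            exact m1 i
        have g6 : ∀ i, (pr b (sl j z)).2 i ∈ J i := by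
          intro i
          by_cases hi : i = i₀
          · subst hi
            rw [hJ0]
            exact g2
          · rw [hJ1 i hi]
            exact m2 i
        refine ⟨J, (hFm _).2 fun i => ⟨g3 i, g4 i⟩, Or.inl ⟨⟨?_, hJ1 j hij⟩,
          ⟨fun l => sl j z (Sum.inl l), hcl, g5⟩, ⟨fun l => sl j z (Sum.inr l), hcr, g6⟩⟩⟩
        obtain ⟨m, hm, hmJ⟩ := exists_powA hp hI g3 g4
        have g7 : m ≠ 0 := by
          rintro rfl
          rw [pow_zero, one_mul] at hmJ
          have h5 : nA J = nm (J i₀) * ∏ i ∈ univ.erase i₀, nm (cf I i) := by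
            rw [nA, ← Finset.mul_prod_erase univ (fun i => nm (J i)) (mem_univ i₀)]
            congr 1
            refine Finset.prod_congr rfl fun i hi => ?_
            rw [hJ1 i (Finset.ne_of_mem_erase hi)]
          have h6 : nA (cf I) = nm (cf I i₀) * ∏ i ∈ univ.erase i₀, nm (cf I i) := by
            rw [nA, ← Finset.mul_prod_erase univ (fun i => nm (cf I i)) (mem_univ i₀)]
          have h7 : 0 < ∏ i ∈ univ.erase i₀, nm (cf I i) :=
            Finset.prod_pos fun i _ => Pool.Agent.Y714.KF.nm_pos (hI i)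
          rw [h5, h6] at hmJ
          have h8 := mul_right_cancel₀ h7.ne' hmJ
          rw [hJ0] at h8
          exact nm_q_ne (hI i₀) hq h8
        rw [hmJ]
        refine mul_le_mul_of_nonneg_right ?_ hIp.le
        calc (p : ℚ) = (p : ℚ) ^ 1 := (pow_one _).symm
          _ ≤ (p : ℚ) ^ m := pow_le_pow_right₀ hp1.le (Nat.one_le_iff_ne_zero.2 g7)
      · push Not at hz
        obtain ⟨a, c, hac, m, hm, hm', he⟩ := hz
        have hac' : ¬ ((p : ℤ) ∣ a ∧ (p : ℤ) ∣ c) := fun h => hac h.1 h.2
        set J : FA K := fun i => sp (p : K i) * cf I i +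
          sp ((a • (pr b (sl j z)).1 + c • (pr b (sl j z)).2) i) with hJ
        have hx : ∀ i, (a • (pr b (sl j z)).1 + c • (pr b (sl j z)).2) i ∈ cf I i := by
          intro i
          rw [zsm]
          exact (cf I i : Submodule (𝓞 (K i)) (K i)).add_mem
            (Pool.Agent.Y714.KF.intCast_mul_mem a (m1 i))
            (Pool.Agent.Y714.KF.intCast_mul_mem c (m2 i))
        have g1 : ∀ i, sp (p : K i) * cf I i ≤ J i := by
          intro i
          rw [hJ]
          dsimp only
          rw [← sup_eq_add]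
          exact le_sup_left
        have g2 : ∀ i, J i ≤ cf I i := by
          intro i
          rw [hJ]
          dsimp only
          rw [← sup_eq_add]
          exact sup_le (spI_le p) (Pool.Agent.Y714.KF.sp_le.2 (hx i))
        have g3 : ∀ i, (a : K i) * (pr b (sl j z)).1 i + (c : K i) * (pr b (sl j z)).2 i ∈ J i := by
          intro i
          rw [← zsm, ← Pool.Agent.Y714.KF.sp_le, hJ]
          dsimp only
          rw [← sup_eq_add]
          exact le_sup_right
        obtain ⟨k, hk⟩ := exists_coef hp hac' hb g1 (sl j z) g3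
        rw [hcast] at hk
        refine ⟨J, (hFm _).2 fun i => ⟨g1 i, g2 i⟩, Or.inr ⟨?_, ⟨k, hk⟩⟩⟩
        rw [he]
        refine mul_le_mul_of_nonneg_right ?_ hIp.le
        exact pow_le_pow_right₀ hp1.le (by omega)
    have hcard : ({t | ∃ z : Jx K j → ℤ,
        (fun i => (z i : ZMod p)) = t ∧ Gd p (cf I) b (sl j z)}ᶜ).ncard ≤
        2 ^ (dg K + 2) * p ^ (2 * dg K - 4) := by
      calc _ ≤ (⋃ J ∈ F, (A J ∪ B J)).ncard :=
            Set.ncard_le_ncard hcov (Set.toFinite _)
        _ ≤ ∑ J ∈ F, (A J ∪ B J).ncard := Finset.set_ncard_biUnion_le _ _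
        _ ≤ ∑ J ∈ F, (4 * p ^ (2 * dg K - 4)) := by
            refine Finset.sum_le_sum fun J hJ => ?_
            have e1 := Set.ncard_union_le (A J) (B J)
            have e2 := hAc J hJ
            have e3 := hBc J hJ
            omega
        _ = F.card * (4 * p ^ (2 * dg K - 4)) := by rw [Finset.sum_const, smul_eq_mul]
        _ ≤ 2 ^ dg K * (4 * p ^ (2 * dg K - 4)) := Nat.mul_le_mul_right _ hFc
        _ = 2 ^ (dg K + 2) * p ^ (2 * dg K - 4) := by
            rw [pow_add]
            ring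
    exact_mod_cast hcard

end Pool.Agent.Z864.KE
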